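import Pool.Agent.Lib.MP_99fcc5_gt.Gen.F3
import Pool.Agent.Lib.MP_99fcc5_gt.Gen.G5

namespace Pool.Agent.Results.MP_c77dc5_gt.AsphericalMaximal

open Pool.Agent.Lib.MP_c77dc5_gt Pool.Agent.Lib.MP_99fcc5_gt.Gen Pool.Agent.Shared.Sing

theorem result (n : ℕ) (hn : 2 ≤ n) (M₁ M₂ : Type) [TopologicalSpace M₁] [TopologicalSpace M₂]
    [T2Space M₁] [T2Space M₂] [CompactSpace M₁] [CompactSpace M₂]
    [ChartedSpace (EuclideanSpace ℝ (Fin n)) M₁] [ChartedSpace (EuclideanSpace ℝ (Fin n)) M₂]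
    (h₁ : Aspherical M₁) (h₂ : Aspherical M₂) (e₁ : EuclideanSpace ℝ (Fin n) → M₁)
    (e₂ : EuclideanSpace ℝ (Fin n) → M₂) (he₁ : Topology.IsOpenEmbedding e₁)
    (he₂ : Topology.IsOpenEmbedding e₂) :
    TC (ConnSum e₁ e₂) = 2 * n + 1 := by
  obtain ⟨E₁, _, p₁, _, q₁, s₁⟩ := h₁
  obtain ⟨E₂, _, p₂, _, q₂, s₂⟩ := h₂
  have := s₁.connectedSpace q₁.continuous
  have := s₂.connectedSpace q₂.continuous
  have := ChartedSpace.locallyPathConnectedSpace (EuclideanSpace ℝ (Fin n)) M₁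
  have := ChartedSpace.locallyPathConnectedSpace (EuclideanSpace ℝ (Fin n)) M₂
  have : NeZero n := ⟨by omega⟩
  have : Infinite (EuclideanSpace ℝ (Fin n)) := Module.Free.infinite ℝ _
  have := Infinite.of_injective e₁ he₁.injective
  have : Nonempty (ConnSum e₁ e₂) := ⟨Quot.mk _ (.inl ⟨_, (exists_ne (e₁ 0)).choose_spec⟩)⟩
  obtain ⟨f₁, f₂, H, H'⟩ := connSum_half he₁ he₂
  refine le_antisymm ?_ (le_sInf ?_)
  · have := H.t2 H'
    have := H.compact H'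
    obtain ⟨x, h1, h2⟩ := (half_inter' H H' (one_lt_rank hn)).1
    have := sum_conn (one_lt_rank hn) H H' (x := x) (fun h => h1 ⟨0, by simp, h.symm⟩)
      fun h => h2 ⟨0, by simp, h.symm⟩
    refine sInf_le ⟨_, exists_planner (H.locEuc (n := n) H'), ?_⟩
    simp [two_mul]
  · rintro _ ⟨m, ⟨U, u1, u2, u3⟩, rfl⟩
    obtain ⟨z, z1, z2⟩ := exists_fund (locEuc_of n M₁)
    obtain ⟨w, w1, w2⟩ := exists_fund (locEuc_of n M₂)
    rw [Fintype.card_fin] at z1 z2 w1 w2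
    have : Fact (Nat.Prime 2) := ⟨Nat.prime_two⟩
    have z3 : map id z = z := map_self (fun _ _ => rfl) z1.1
    have w3 : map id w = w := map_self (fun _ _ => rfl) w1.1
    exact_mod_cast Fld.two_mul_lt (F := ZMod 2) hn q₁ s₁ q₂ s₂ (Or.inr ⟨‹_›, ‹_›⟩) continuous_id
      continuous_id z1 (fun h => z2 (e₁ 0) (B_mono le_rfl (Set.empty_subset _) (z3 ▸ h)))
      w1 (fun h => w2 (e₂ 0) (B_mono le_rfl (Set.empty_subset _) (w3 ▸ h))) H H' u1 u2 u3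

end Pool.Agent.Results.MP_c77dc5_gt.AsphericalMaximal
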