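import Pool.Agent.Lib.MP_99fcc5_gt.Gen.F3
import Pool.Agent.Lib.MP_99fcc5_gt.Gen.G5
import Pool.Agent.Shared.Sing.Bridge

namespace Pool.Agent.Results.MP_c77dc5_gt.EssentialMaximal

open Pool.Agent.Lib.MP_c77dc5_gt Pool.Agent.Lib.MP_99fcc5_gt.Gen Pool.Agent.Sing

/-- `c_* : H_k(M; F) → H_k(B; F)` is nonzero: the image of some `k`-cycle is not a boundary. -/
def MapNe (F : Type) [Field F] {M B : Type} [TopologicalSpace M] [TopologicalSpace B]
    (c : C(M, B)) (k : ℕ) : Prop :=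
  ∃ z ∈ cyc F M k, push F c k z ∉ bdry F B k

theorem result (F : Type) [Field F] (hF : (2 : F) ≠ 0) (n : ℕ) (hn : 2 ≤ n)
    (M : Type) [TopologicalSpace M] [T2Space M] [CompactSpace M] [ConnectedSpace M]
    [ChartedSpace (EuclideanSpace ℝ (Fin n)) M]
    (N : Type) [TopologicalSpace N] [T2Space N] [CompactSpace N] [ConnectedSpace N]
    [ChartedSpace (EuclideanSpace ℝ (Fin n)) N]
    (A : Type) [TopologicalSpace A] [LocallyPathConnectedSpace A] (hA : Aspherical A)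
    (B : Type) [TopologicalSpace B] [LocallyPathConnectedSpace B] (hB : Aspherical B)
    (a : C(M, A)) (ha : MapNe F a n) (b : C(N, B)) (hb : MapNe F b n)
    (e₁ : EuclideanSpace ℝ (Fin n) → M) (he₁ : Topology.IsOpenEmbedding e₁)
    (e₂ : EuclideanSpace ℝ (Fin n) → N) (he₂ : Topology.IsOpenEmbedding e₂) :
    TC (ConnSum e₁ e₂) = 2 * n + 1 := by
  obtain ⟨E, _, p, _, q, s⟩ := hA
  obtain ⟨E', _, p', _, q', s'⟩ := hB
  obtain ⟨z, z1, z2⟩ := ha
  obtain ⟨w, w1, w2⟩ := hb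
  have : Nonempty A := ⟨a (e₁ 0)⟩
  have : Nonempty B := ⟨b (e₂ 0)⟩
  have : NeZero n := ⟨by omega⟩
  have : Infinite (EuclideanSpace ℝ (Fin n)) := Module.Free.infinite ℝ _
  have := Infinite.of_injective e₁ he₁.injective
  have : Nonempty (ConnSum e₁ e₂) := ⟨Quot.mk _ (.inl ⟨_, (exists_ne (e₁ 0)).choose_spec⟩)⟩
  obtain ⟨f₁, f₂, H, H'⟩ := connSum_half he₁ he₂
  refine le_antisymm ?_ (le_sInf ?_)
  · have := H.t2 H'
    have := H.compact H'
    obtain ⟨x, h1, h2⟩ := (half_inter' H H' (one_lt_rank hn)).1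
    have := sum_conn (one_lt_rank hn) H H' (x := x) (fun h => h1 ⟨0, by simp, h.symm⟩)
      fun h => h2 ⟨0, by simp, h.symm⟩
    refine sInf_le ⟨_, exists_planner (H.locEuc (n := n) H'), ?_⟩
    simp [two_mul]
  · rintro _ ⟨m, ⟨U, u1, u2, u3⟩, rfl⟩
    exact_mod_cast Fld.two_mul_lt hn q s q' s' (Or.inl hF) a.continuous b.continuous
      (Shared.Sing.br_mem_Z.2 z1) (Shared.Sing.br_push a z ▸ mt Shared.Sing.br_mem_B.1 z2)
      (Shared.Sing.br_mem_Z.2 w1) (Shared.Sing.br_push b w ▸ mt Shared.Sing.br_mem_B.1 w2)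
      H H' u1 u2 u3

/-- The posed question: an aspherical manifold with nonzero top rational homology. -/
theorem posed_question (n : ℕ) (hn : n = 3 ∨ n = 4) (M : Type) [TopologicalSpace M] [T2Space M]
    [CompactSpace M] [ConnectedSpace M] [ChartedSpace (EuclideanSpace ℝ (Fin n)) M]
    (hM : Aspherical M) (ho : ∃ μ ∈ cyc ℚ M n, μ ∉ bdry ℚ M n)
    (e₁ e₂ : EuclideanSpace ℝ (Fin n) → M) (he₁ : Topology.IsOpenEmbedding e₁)
    (he₂ : Topology.IsOpenEmbedding e₂) : 7 ≤ TC (ConnSum e₁ e₂) := by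
  have := ChartedSpace.locallyPathConnectedSpace (EuclideanSpace ℝ (Fin n)) M
  have h : MapNe ℚ (ContinuousMap.id M) n := ho.imp fun μ h => ⟨h.1, by
    rw [show push ℚ (ContinuousMap.id M) n μ = μ from Finsupp.mapDomain_id]
    exact h.2⟩
  rw [result ℚ two_ne_zero n (by omega) M M M hM M hM _ h _ h e₁ he₁ e₂ he₂]
  rcases hn with rfl | rfl <;> norm_num

end Pool.Agent.Results.MP_c77dc5_gt.EssentialMaximal
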