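import Pool.Agent.FS.OneEss.Core
import Pool.Agent.Shared.Sing.Bridge

namespace Pool.Agent.Results.MP_c77dc5_gt.OneEssentialSummand

open Pool.Agent.Lib.MP_c77dc5_gt Pool.Agent.Sing

/-- One summand is essential in the top degree `n`, the other carries a class of degree `l < n`
that survives in an aspherical space. -/
theorem result (F : Type) [Field F] (n l : ℕ) (hl : 2 ≤ l) (hln : l < n)
    (M : Type) [TopologicalSpace M] [T2Space M] [CompactSpace M] [ConnectedSpace M]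
    [ChartedSpace (EuclideanSpace ℝ (Fin n)) M]
    (N : Type) [TopologicalSpace N] [T2Space N] [CompactSpace N] [ConnectedSpace N]
    [ChartedSpace (EuclideanSpace ℝ (Fin n)) N] (hN : ∃ μ ∈ cyc F N n, μ ∉ bdry F N n)
    (A : Type) [TopologicalSpace A] [LocallyPathConnectedSpace A] (hA : Aspherical A)
    (B : Type) [TopologicalSpace B] [LocallyPathConnectedSpace B] (hB : Aspherical B)
    (hF : (2 : F) ≠ 0 ∨ CompactSpace A ∧ CompactSpace B)
    (a : C(M, A)) (ha : ∃ z ∈ cyc F M n, push F a n z ∉ bdry F A n)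
    (b : C(N, B)) (hb : ∃ z ∈ cyc F N l, push F b l z ∉ bdry F B l)
    (e₁ : EuclideanSpace ℝ (Fin n) → M) (he₁ : Topology.IsOpenEmbedding e₁)
    (e₂ : EuclideanSpace ℝ (Fin n) → N) (he₂ : Topology.IsOpenEmbedding e₂) :
    (n : ℕ∞) + l + 2 ≤ TC (ConnSum e₁ e₂) := by
  refine le_sInf ?_
  rintro _ ⟨m, ⟨U, u1, u2, u3⟩, rfl⟩
  obtain ⟨E, _, p, _, q, s⟩ := hA
  obtain ⟨E', _, p', _, q', s'⟩ := hB
  obtain ⟨ν, n1, n2⟩ := hN
  obtain ⟨z, z1, z2⟩ := ha
  obtain ⟨w, w1, w2⟩ := hb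
  have : Nonempty A := ⟨a (e₁ 0)⟩
  have : Nonempty B := ⟨b (e₂ 0)⟩
  have : NeZero n := ⟨by omega⟩
  have : Infinite (EuclideanSpace ℝ (Fin n)) := Module.Free.infinite ℝ _
  have := Infinite.of_injective e₁ he₁.injective
  have : Nonempty (ConnSum e₁ e₂) := ⟨Quot.mk _ (.inl ⟨_, (exists_ne (e₁ 0)).choose_spec⟩)⟩
  obtain ⟨f₁, f₂, H, H'⟩ := connSum_half he₁ he₂
  exact_mod_cast FS.OneEss.add_two_le hl hln q s q' s' hF a.continuous b.continuous
    (Shared.Sing.br_mem_Z.2 z1) (Shared.Sing.br_push a z ▸ mt Shared.Sing.br_mem_B.1 z2)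
    (Shared.Sing.br_mem_Z.2 n1) (mt Shared.Sing.br_mem_B.1 n2) (Shared.Sing.br_mem_Z.2 w1)
    (Shared.Sing.br_push b w ▸ mt Shared.Sing.br_mem_B.1 w2) H H' u1 u2 u3

end Pool.Agent.Results.MP_c77dc5_gt.OneEssentialSummand
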